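import Mathlib

/-! Parameters for the quasi-polynomial Aaronson-Ambainis theorem (block FC). -/

set_option autoImplicit false

namespace Pool.Agent.Lib_helper15.QP

open Real

/-- (FC) parameters, with the error term written out. -/
theorem params {d : ℕ} (hd1 : 1 ≤ d) {V : ℝ} (hV : 0 < V) (hV1 : V ≤ 1) :
    ∃ α K R m0 W θ k : ℝ, 0 < α ∧ α ≤ 1 ∧ 1 ≤ K ∧ 4 * (d : ℝ) ≤ K ^ α ∧ 0 ≤ R ∧ 0 < m0 ∧ m0 ≤ 1 ∧
      0 ≤ W ∧ 2 * Real.exp 1 * (d / m0) * (d / (m0 ^ 2 / (4096 * d ^ 4))) ≤ Real.exp W ∧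
      0 < k ∧ k ≤ 1 ∧
      Real.exp (-10000 * (Real.log (2 * d) ^ 3 + Real.log (2 * d) * Real.log (2 / V))) ≤ θ ∧
      16 * (d : ℝ) ^ 3 * (Real.sqrt k + k ^ (-2 : ℝ) *
        ((d * θ ^ α + (4 * (d : ℝ) ^ 2 * m0 ^ α +
          4 * d * (360 * (d : ℝ) ^ 7 * K ^ 2 * (4 * d + 2 * W) ^ 6 * Real.exp (-R / 4)))) *
          (2 * d) ^ (α * (R + 2)))) < V := by
  have hd : (1 : ℝ) ≤ d := by exact_mod_cast hd1
  have hd0 : (0 : ℝ) < d := by linarith
  have hlog2 : 0.6931471803 < Real.log 2 := Real.log_two_gt_d9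
  obtain ⟨lam, hlam⟩ : ∃ lam, lam = Real.log (2 * d) := ⟨_, rfl⟩
  obtain ⟨v, hv⟩ : ∃ v, v = Real.log (2 / V) := ⟨_, rfl⟩
  obtain ⟨ell, hell⟩ : ∃ ell, ell = Real.log (4 * d) := ⟨_, rfl⟩
  have hlam2 : Real.log 2 ≤ lam := by
    rw [hlam]; exact Real.log_le_log (by norm_num) (by linarith)
  have hell_lam : ell = lam + Real.log 2 := by
    rw [hell, hlam, ← Real.log_mul (by positivity) (by norm_num)]
    congr 1; ring
  have hv2 : Real.log 2 ≤ v := by
    rw [hv]
    apply Real.log_le_log (by norm_num)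
    rw [le_div_iff₀ hV]; linarith
  have hell1 : (1.38 : ℝ) ≤ ell := by rw [hell_lam]; linarith
  have hell0 : 0 < ell := by linarith
  have hell2lam : ell ≤ 2 * lam := by rw [hell_lam]; linarith
  obtain ⟨L, hL⟩ : ∃ L, L = ell ^ 2 + v := ⟨_, rfl⟩
  have hsq : ell ≤ ell ^ 2 := by nlinarith
  have hsq2 : (1.9 : ℝ) ≤ ell ^ 2 := by nlinarith
  have hL1 : (2.59 : ℝ) ≤ L := by rw [hL]; linarith
  have hellL : ell ≤ L := by rw [hL]; linarith
  have hell2L : ell ^ 2 ≤ L := by rw [hL]; linarith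
  have hexpell : Real.exp ell = 4 * d := by rw [hell]; exact Real.exp_log (by positivity)
  have hL0 : 0 < L := by linarith
  have hα0 : 0 < 1 / (16 * ell) := by positivity
  refine ⟨1 / (16 * ell), Real.exp (16 * ell ^ 2), 800 * L, Real.exp (-1168 * ell * L),
    3512 * ell * L, Real.exp (-1168 * ell * L), (V / (64 * d ^ 3)) ^ 2, hα0, ?_, ?_, ?_, by positivity,
    Real.exp_pos _, ?_, by positivity, ?_, by positivity, ?_, ?_, ?_⟩
  · rw [div_le_one (by positivity)]; linarith
  · exact Real.one_le_exp (by positivity)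
  · rw [← Real.exp_mul, ← hexpell]
    apply Real.exp_le_exp.2
    apply le_of_eq
    field_simp
  · rw [← Real.exp_zero]
    apply Real.exp_le_exp.2
    have : 0 < ell * L := by positivity
    linarith
  · -- the condition on W
    have h1 : (2 : ℝ) * Real.exp 1 * (d / Real.exp (-1168 * ell * L)) *
        (d / (Real.exp (-1168 * ell * L) ^ 2 / (4096 * d ^ 4))) =
        2 * Real.exp (1 + 6 * ell + 3504 * (ell * L)) := by
      have e1 : Real.exp (6 * ell) = (4 * d) ^ 6 := by
        rw [← hexpell, ← Real.exp_nat_mul]; norm_num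
      have e2 : Real.exp (1168 * (ell * L)) = (Real.exp (-1168 * ell * L))⁻¹ := by
        rw [← Real.exp_neg]; congr 1; ring
      have e3 : Real.exp (3504 * (ell * L)) = (Real.exp (-1168 * ell * L))⁻¹ ^ 3 := by
        rw [← e2, ← Real.exp_nat_mul]; congr 1; push_cast; ring
      rw [Real.exp_add, Real.exp_add, e1, e3]
      have hpos := Real.exp_pos (-1168 * ell * L)
      field_simp
      ring
    rw [h1]
    have h2 : (2 : ℝ) ≤ Real.exp 1 := by
      have := Real.add_one_le_exp (1 : ℝ); linarith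
    calc 2 * Real.exp (1 + 6 * ell + 3504 * (ell * L))
        ≤ Real.exp 1 * Real.exp (1 + 6 * ell + 3504 * (ell * L)) := by
          apply mul_le_mul_of_nonneg_right h2 (Real.exp_pos _).le
      _ = Real.exp (2 + 6 * ell + 3504 * (ell * L)) := by
          rw [← Real.exp_add]; congr 1; ring
      _ ≤ Real.exp (3512 * ell * L) := by
          apply Real.exp_le_exp.2
          nlinarith
  · -- k ≤ 1
    have h1 : V / (64 * d ^ 3) ≤ 1 := by
      rw [div_le_one (by positivity)]
      have : (1 : ℝ) ≤ (d : ℝ) ^ 3 := one_le_pow₀ hd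
      linarith
    have h0 : 0 ≤ V / (64 * d ^ 3) := by positivity
    exact pow_le_one₀ h0 h1
  · -- θ
    apply Real.exp_le_exp.2
    rw [← hlam, ← hv]
    have hlam0 : 0 < lam := by linarith
    have hv0 : 0 < v := by linarith
    have h1 : ell ^ 3 ≤ 8 * lam ^ 3 := by
      calc ell ^ 3 ≤ (2 * lam) ^ 3 := pow_le_pow_left₀ hell0.le hell2lam 3
        _ = 8 * lam ^ 3 := by ring
    have h2 : ell * v ≤ 2 * lam * v := mul_le_mul_of_nonneg_right hell2lam hv0.le
    have h3 : 0 < lam ^ 3 := by positivity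
    have h4 : 0 < lam * v := by positivity
    rw [hL]
    nlinarith
  · -- the main inequality
    have hk1 : Real.sqrt ((V / (64 * (d : ℝ) ^ 3)) ^ 2) = V / (64 * d ^ 3) :=
      Real.sqrt_sq (by positivity)
    have hk2 : ((V / (64 * (d : ℝ) ^ 3)) ^ 2) ^ (-2 : ℝ) = (64 * d ^ 3 / V) ^ 4 := by
      rw [Real.rpow_neg (by positivity)]
      rw [show (2 : ℝ) = ((2 : ℕ) : ℝ) by norm_num, Real.rpow_natCast, ← pow_mul]
      rw [← inv_pow, inv_div]
    have hθ : Real.exp (-1168 * ell * L) ^ (1 / (16 * ell)) = Real.exp (-73 * L) := by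
      rw [← Real.exp_mul]
      congr 1
      field_simp
      ring
    rw [hk1, hk2, hθ]
    -- bounds
    have hD : (1 : ℝ) ≤ (64 * d ^ 3 / V) := by
      rw [le_div_iff₀ hV]
      have : (1 : ℝ) ≤ (d : ℝ) ^ 3 := one_le_pow₀ hd
      linarith
    have hv' : Real.exp v = 2 / V := by rw [hv]; exact Real.exp_log (by positivity)
    have h64 : 64 * (d : ℝ) ^ 3 = Real.exp (3 * ell) := by
      have : Real.exp (3 * ell) = (4 * d) ^ 3 := by
        rw [← hexpell, ← Real.exp_nat_mul]; norm_num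
      rw [this]; ring
    have hA : (64 * (d : ℝ) ^ 3) ^ 5 / V ^ 5 ≤ Real.exp (15 * L) := by
      have h1 : (64 * (d : ℝ) ^ 3) ^ 5 / V ^ 5 = (64 * (d : ℝ) ^ 3) ^ 5 * (1 / V) ^ 5 := by
        field_simp
      have h2 : (1 / V : ℝ) ≤ Real.exp v := by
        rw [hv']
        exact div_le_div_of_nonneg_right (by norm_num) hV.le
      have h3 : (1 / V : ℝ) ^ 5 ≤ Real.exp v ^ 5 := pow_le_pow_left₀ (by positivity) h2 5
      calc (64 * (d : ℝ) ^ 3) ^ 5 / V ^ 5
          ≤ (Real.exp (3 * ell)) ^ 5 * Real.exp v ^ 5 := by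
            rw [h1, h64]
            exact mul_le_mul_of_nonneg_left h3 (by positivity)
        _ = Real.exp (15 * ell + 5 * v) := by
            rw [← Real.exp_nat_mul, ← Real.exp_nat_mul, ← Real.exp_add]
            congr 1; push_cast; ring
        _ ≤ Real.exp (15 * L) := by
            apply Real.exp_le_exp.2
            rw [hL]
            nlinarith
    have hB : (2 * (d : ℝ)) ^ (1 / (16 * ell) * (800 * L + 2)) ≤ Real.exp (51 * L) := by
      have h1 : (2 * (d : ℝ)) ≤ Real.exp ell := by rw [hexpell]; linarith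
      calc (2 * (d : ℝ)) ^ (1 / (16 * ell) * (800 * L + 2))
          ≤ (Real.exp ell) ^ (1 / (16 * ell) * (800 * L + 2)) :=
            Real.rpow_le_rpow (by positivity) h1 (by positivity)
        _ = Real.exp (50 * L + 1 / 8) := by
            rw [← Real.exp_mul]
            congr 1
            field_simp
            ring
        _ ≤ Real.exp (51 * L) := by
            apply Real.exp_le_exp.2; linarith
    have hC : (4 * (d : ℝ) + 2 * (3512 * ell * L)) ^ 6 ≤ Real.exp (30 * L) := by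
      have h1 : L ^ 2 ≤ 2 * Real.exp L := by
        have := Real.quadratic_le_exp_of_nonneg hL0.le
        nlinarith
      have h2 : 4 * (d : ℝ) ≤ Real.exp L := by
        rw [← hexpell]; exact Real.exp_le_exp.2 hellL
      have h3 : ell * L ≤ L ^ 2 := by nlinarith
      have h4 : 4 * (d : ℝ) + 2 * (3512 * ell * L) ≤ 14049 * Real.exp L := by nlinarith
      have h5 : (14049 : ℝ) ≤ Real.exp (4 * L) := by
        have h6 : (2.7182818283 : ℝ) < Real.exp 1 := Real.exp_one_gt_d9
        have h7 : Real.exp (10 : ℝ) ≤ Real.exp (4 * L) := Real.exp_le_exp.2 (by linarith)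
        have h8 : Real.exp (10 : ℝ) = Real.exp 1 ^ 10 := by
          rw [← Real.exp_nat_mul]; norm_num
        have h9 : (2.7182818283 : ℝ) ^ 10 ≤ Real.exp 1 ^ 10 :=
          pow_le_pow_left₀ (by norm_num) h6.le 10
        have h10 : (14049 : ℝ) ≤ (2.7182818283 : ℝ) ^ 10 := by norm_num
        linarith
      have h6 : 4 * (d : ℝ) + 2 * (3512 * ell * L) ≤ Real.exp (5 * L) := by
        have : Real.exp (5 * L) = Real.exp (4 * L) * Real.exp L := by
          rw [← Real.exp_add]; congr 1; ring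
        rw [this]
        have hp := Real.exp_pos L
        nlinarith
      calc (4 * (d : ℝ) + 2 * (3512 * ell * L)) ^ 6 ≤ (Real.exp (5 * L)) ^ 6 :=
            pow_le_pow_left₀ (by positivity) h6 6
        _ = Real.exp (30 * L) := by
            rw [← Real.exp_nat_mul]; congr 1; push_cast; ring
    have hK2 : Real.exp (16 * ell ^ 2) ^ 2 ≤ Real.exp (32 * L) := by
      rw [← Real.exp_nat_mul]
      apply Real.exp_le_exp.2
      push_cast
      nlinarith
    have hd8 : 1440 * (d : ℝ) ^ 8 ≤ Real.exp (8 * L) := by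
      have h1 : Real.exp (8 * ell) = (4 * d) ^ 8 := by
        rw [← hexpell, ← Real.exp_nat_mul]; norm_num
      have h2 : Real.exp (8 * ell) ≤ Real.exp (8 * L) := Real.exp_le_exp.2 (by linarith)
      have h3 : 0 < (d : ℝ) ^ 8 := by positivity
      have h4 : (4 * (d : ℝ)) ^ 8 = 65536 * (d : ℝ) ^ 8 := by ring
      rw [h1, h4] at h2
      linarith
    have hdL : (d : ℝ) ≤ Real.exp L := by
      have : Real.exp ell ≤ Real.exp L := Real.exp_le_exp.2 hellL
      rw [hexpell] at this; linarith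
    have h4d2 : 4 * (d : ℝ) ^ 2 ≤ Real.exp (2 * L) := by
      have h1 : Real.exp (2 * ell) = (4 * d) ^ 2 := by
        rw [← hexpell, ← Real.exp_nat_mul]; norm_num
      have h2 : Real.exp (2 * ell) ≤ Real.exp (2 * L) := Real.exp_le_exp.2 (by linarith)
      rw [h1] at h2
      have h3 : 0 < (d : ℝ) ^ 2 := by positivity
      nlinarith
    -- the sum of the three terms
    have hT1 : (d : ℝ) * Real.exp (-73 * L) ≤ Real.exp (-71 * L) := by
      calc (d : ℝ) * Real.exp (-73 * L) ≤ Real.exp L * Real.exp (-73 * L) :=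
            mul_le_mul_of_nonneg_right hdL (Real.exp_pos _).le
        _ = Real.exp (-72 * L) := by rw [← Real.exp_add]; congr 1; ring
        _ ≤ Real.exp (-71 * L) := Real.exp_le_exp.2 (by linarith)
    have hT2 : 4 * (d : ℝ) ^ 2 * Real.exp (-73 * L) ≤ Real.exp (-71 * L) := by
      calc 4 * (d : ℝ) ^ 2 * Real.exp (-73 * L) ≤ Real.exp (2 * L) * Real.exp (-73 * L) :=
            mul_le_mul_of_nonneg_right h4d2 (Real.exp_pos _).le
        _ = Real.exp (-71 * L) := by rw [← Real.exp_add]; congr 1; ring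
    have hT3 : 4 * (d : ℝ) * (360 * (d : ℝ) ^ 7 * Real.exp (16 * ell ^ 2) ^ 2 *
        (4 * d + 2 * (3512 * ell * L)) ^ 6 * Real.exp (-(800 * L) / 4)) ≤ Real.exp (-71 * L) := by
      have h1 : 4 * (d : ℝ) * (360 * (d : ℝ) ^ 7 * Real.exp (16 * ell ^ 2) ^ 2 *
          (4 * d + 2 * (3512 * ell * L)) ^ 6 * Real.exp (-(800 * L) / 4)) =
          (1440 * (d : ℝ) ^ 8) * (Real.exp (16 * ell ^ 2) ^ 2) *
          ((4 * d + 2 * (3512 * ell * L)) ^ 6) * Real.exp (-(800 * L) / 4) := by ring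
      rw [h1]
      calc (1440 * (d : ℝ) ^ 8) * (Real.exp (16 * ell ^ 2) ^ 2) *
          ((4 * d + 2 * (3512 * ell * L)) ^ 6) * Real.exp (-(800 * L) / 4)
          ≤ Real.exp (8 * L) * Real.exp (32 * L) * Real.exp (30 * L) *
            Real.exp (-(800 * L) / 4) := by
            gcongr
        _ = Real.exp (-130 * L) := by
            rw [← Real.exp_add, ← Real.exp_add, ← Real.exp_add]; congr 1; ring
        _ ≤ Real.exp (-71 * L) := Real.exp_le_exp.2 (by linarith)
    set T : ℝ := (d : ℝ) * Real.exp (-73 * L) + (4 * (d : ℝ) ^ 2 * Real.exp (-73 * L) +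
        4 * d * (360 * (d : ℝ) ^ 7 * Real.exp (16 * ell ^ 2) ^ 2 *
        (4 * d + 2 * (3512 * ell * L)) ^ 6 * Real.exp (-(800 * L) / 4))) with hTdef
    have hT0 : 0 ≤ T := by positivity
    have hT : T ≤ 3 * Real.exp (-71 * L) := by rw [hTdef]; linarith
    have hmain : (64 * (d : ℝ) ^ 3) ^ 5 / V ^ 5 *
        (T * (2 * (d : ℝ)) ^ (1 / (16 * ell) * (800 * L + 2))) < 3 := by
      calc (64 * (d : ℝ) ^ 3) ^ 5 / V ^ 5 *
          (T * (2 * (d : ℝ)) ^ (1 / (16 * ell) * (800 * L + 2)))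
          ≤ Real.exp (15 * L) * ((3 * Real.exp (-71 * L)) * Real.exp (51 * L)) := by
            gcongr
        _ = 3 * Real.exp (-5 * L) := by
            rw [show Real.exp (15 * L) * ((3 * Real.exp (-71 * L)) * Real.exp (51 * L)) =
              3 * (Real.exp (15 * L) * Real.exp (-71 * L) * Real.exp (51 * L)) by ring]
            rw [← Real.exp_add, ← Real.exp_add]
            congr 2; ring
        _ < 3 := by
            have : Real.exp (-5 * L) < 1 := by
              rw [← Real.exp_zero]; exact Real.exp_lt_exp.2 (by linarith)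
            linarith
    have hrw : 16 * (d : ℝ) ^ 3 * (V / (64 * d ^ 3) + (64 * d ^ 3 / V) ^ 4 *
        (T * (2 * (d : ℝ)) ^ (1 / (16 * ell) * (800 * L + 2)))) =
        V / 4 + V / 4 * ((64 * (d : ℝ) ^ 3) ^ 5 / V ^ 5 *
        (T * (2 * (d : ℝ)) ^ (1 / (16 * ell) * (800 * L + 2)))) := by
      field_simp
      ring
    rw [hrw]
    nlinarith

end Pool.Agent.Lib_helper15.QP
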